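import Mathlib

/-!
# Project AX (helper755): a finitely dependent point process on the line with bounded gaps
(problem 5bb7da, S19343)

Definitions and the exact statements of the parts.
-/

set_option autoImplicit false
set_option linter.unusedVariables false

open MeasureTheory ProbabilityTheory Filter

open scoped Classical

namespace Pool.Agent.Y755.AX

noncomputable section

/-! ### Processes on the integers -/

/-- the shift -/
def sh {α : Type} (f : ℤ → α) : ℤ → α := fun x => f (x + 1)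

/-- stationary law -/
def Sta {α : Type} [MeasurableSpace α] (μ : Measure (ℤ → α)) : Prop := μ.map sh = μ

/-- events determined by the coordinates in a set -/
@[reducible] def Fs {α : Type} [MeasurableSpace α] (S : Set ℤ) : MeasurableSpace (ℤ → α) :=
  ⨆ x ∈ S, MeasurableSpace.comap (fun f : ℤ → α => f x) inferInstance

/-- `k`-dependence -/
def Dep {α : Type} [MeasurableSpace α] (k : ℕ) (μ : Measure (ℤ → α)) : Prop :=
  Indep (Fs {x : ℤ | x < 0}) (Fs {x : ℤ | (k : ℤ) ≤ x}) μ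

/-- cylinder events -/
def cyl {α : Type} (S : Finset ℤ) (e : ℤ → α) : Set (ℤ → α) := {ω | ∀ x ∈ S, ω x = e x}

/-- consecutive points have distance between `a` and `b` -/
def Gap (a b : ℕ) (A : ℤ → Bool) : Prop :=
  (∀ x y : ℤ, x < y → A x = true → A y = true → (a : ℤ) ≤ y - x) ∧
    ∀ x : ℤ, ∃ y : ℤ, x ≤ y ∧ y < x + b ∧ A y = true

/-- DEPC: dependence from cylinders. -/
def S_DEPC : Prop := ∀ (α : Type) [Fintype α] [MeasurableSpace α] [MeasurableSingletonClass α]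
  (k : ℕ) (μ : Measure (ℤ → α)), IsProbabilityMeasure μ →
  (∀ (N : ℕ) (e : ℤ → α),
    μ (cyl (Finset.Ico (-(N : ℤ)) 0) e ∩ cyl (Finset.Ico (k : ℤ) (k + N)) e) =
      μ (cyl (Finset.Ico (-(N : ℤ)) 0) e) * μ (cyl (Finset.Ico (k : ℤ) (k + N)) e)) → Dep k μ

/-- STAC: stationarity from cylinders. -/
def S_STAC : Prop := ∀ (α : Type) [Fintype α] [MeasurableSpace α] [MeasurableSingletonClass α]
  (μ : Measure (ℤ → α)), IsProbabilityMeasure μ →
  (∀ (s : ℤ) (N : ℕ) (e : ℤ → α), μ {ω | ∀ x ∈ Finset.Ico s (s + N), ω (x + 1) = e x} =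
    μ (cyl (Finset.Ico s (s + N)) e)) → Sta μ

/-- BF: block factors. -/
def S_BF : Prop := ∀ (α β : Type) [Fintype α] [MeasurableSpace α] [MeasurableSingletonClass α]
  [Fintype β] [MeasurableSpace β] [MeasurableSingletonClass β] (r k : ℕ) (μ : Measure (ℤ → α))
  (Γ : (ℤ → α) → ℤ → β), IsProbabilityMeasure μ → Sta μ → Dep k μ →
  (∀ ω, Γ (sh ω) = sh (Γ ω)) →
  (∀ (ω ω' : ℤ → α) (x : ℤ), (∀ y : ℤ, |y - x| ≤ r → ω y = ω' y) → Γ ω x = Γ ω' x) →
  Measurable Γ ∧ Sta (μ.map Γ) ∧ Dep (k + 2 * r) (μ.map Γ)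

/-! ### One-dependent colouring -/

/-- HLB: the weights of Holroyd and Liggett. -/
def S_HLB : Prop := ∃ B : List (Fin 4) → ℕ, B [] = 1 ∧
  (∀ (u v : List (Fin 4)) (a : Fin 4), B (u ++ a :: a :: v) = 0) ∧
  ∀ x y : List (Fin 4), ∑ a : Fin 4, B (x ++ a :: y) =
    2 * (x.length + y.length + 2).choose (x.length + 1) * B x * B y

/-- KOL: a measure with given cylinder probabilities. -/
def S_KOL : Prop := ∀ p : List (Fin 4) → ℝ, (∀ x, 0 ≤ p x) → p [] = 1 →
  (∀ x, ∑ a : Fin 4, p (x ++ [a]) = p x) → (∀ x, ∑ a : Fin 4, p (a :: x) = p x) →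
  ∃ ν : Measure (ℤ → Fin 4), IsProbabilityMeasure ν ∧ ∀ (s : ℤ) (x : List (Fin 4)),
    ν {Y | ∀ i : Fin x.length, Y (s + (i : ℕ)) = x.get i} = ENNReal.ofReal (p x)

/-- HL: the one-dependent colouring. -/
def S_HL : Prop := ∃ ν : Measure (ℤ → Fin 4), IsProbabilityMeasure ν ∧ Sta ν ∧ Dep 1 ν ∧
  ∀ᵐ Y ∂ν, ∀ i : ℤ, Y i ≠ Y (i + 1)

/-- local maxima -/
def mx (Y : ℤ → Fin 4) : ℤ → Bool := fun i => decide (Y (i - 1) < Y i ∧ Y (i + 1) < Y i)

/-- MXD: the distances of local maxima. -/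
def S_MXD : Prop := ∀ Y : ℤ → Fin 4, (∀ i : ℤ, Y i ≠ Y (i + 1)) → Gap 2 6 (mx Y)

/-! ### Marking the points of a process -/

/-- the index of a position -/
def idx (A : ℤ → Bool) (x : ℤ) : ℤ :=
  (((Finset.Ico 0 x).filter fun y => A y = true).card : ℤ) -
    (((Finset.Ico x 0).filter fun y => A y = true).card : ℤ)

/-- the points of `A`, marked by `Y` -/
def att (A Y : ℤ → Bool) : ℤ → Bool × Bool := fun x => (A x, A x && Y (idx A x))

/-- ATS: marking gives a stationary process. -/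
def S_ATS : Prop := ∀ (μ ν : Measure (ℤ → Bool)), IsProbabilityMeasure μ →
  IsProbabilityMeasure ν → Sta μ → Sta ν →
  Measurable (fun p : (ℤ → Bool) × (ℤ → Bool) => att p.1 p.2) ∧
    Sta ((μ.prod ν).map fun p => att p.1 p.2)

/-- ATP: dependence of the marked process. -/
def S_ATP : Prop := ∀ (a b k K : ℕ) (μ ν : Measure (ℤ → Bool)), IsProbabilityMeasure μ →
  IsProbabilityMeasure ν → Sta μ → Sta ν → Dep k μ → Dep K ν → (∀ᵐ A ∂μ, Gap a b A) →
  Dep (k + K * b) ((μ.prod ν).map fun p => att p.1 p.2)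

/-- ATG: distances of the marked points. -/
def S_ATG : Prop := ∀ (a b s t : ℕ) (A Y : ℤ → Bool), Gap a b A → Gap s t Y →
  Gap (s * a) (t * b) (fun x => (att A Y x).2)

/-- subdivision of the gaps of the marked points in steps of length about `h` -/
def sub (h R : ℕ) (p : ℤ → Bool × Bool) : ℤ → Bool := fun x => decide ((p x).1 = true ∧
  ∃ u w : ℤ, x - R ≤ u ∧ u ≤ x ∧ x < w ∧ w ≤ x + R ∧ (p u).2 = true ∧ (p w).2 = true ∧
    (∀ y : ℤ, u < y → y < w → (p y).2 = false) ∧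
    ∃ j : ℕ, ((j : ℤ) + 1) * h ≤ w - u ∧ u + j * h ≤ x ∧
      ∀ y : ℤ, u + j * h ≤ y → y < x → (p y).1 = false)

/-- SUBD: the gaps of the subdivision. -/
def S_SUBD : Prop := ∀ (a R : ℕ) (p : ℤ → Bool × Bool), 1 ≤ a →
  Gap a (4 * a) (fun x => (p x).1) → (∀ x, (p x).2 = true → (p x).1 = true) →
  Gap (8 * a) R (fun x => (p x).2) → Gap (4 * a) (16 * a) (sub (8 * a) R p)

/-- SUBL: the subdivision is local. -/
def S_SUBL : Prop := ∀ h R : ℕ, (∀ p, sub h R (sh p) = sh (sub h R p)) ∧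
  ∀ (p p' : ℤ → Bool × Bool) (x : ℤ), (∀ y : ℤ, |y - x| ≤ R → p y = p' y) →
    sub h R p x = sub h R p' x

/-- SPA: a sparse process. -/
def S_SPA : Prop := ∃ (K R : ℕ) (ν : Measure (ℤ → Bool)), IsProbabilityMeasure ν ∧ Sta ν ∧
  Dep K ν ∧ ∀ᵐ A ∂ν, Gap 8 R A

/-- LVL: processes at all scales. -/
def S_LVL : Prop := ∃ C : ℕ, ∀ m : ℕ, ∃ μ : Measure (ℤ → Bool), IsProbabilityMeasure μ ∧
  Sta μ ∧ Dep (C * 4 ^ m) μ ∧ ∀ᵐ A ∂μ, Gap (4 ^ m) (4 * 4 ^ m) A

/-! ### The line -/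

/-- distance functions of sets with gaps in `[1, 4]` -/
def IsE (d : ℝ → ℝ) : Prop :=
  (∀ x y : ℝ, |d x - d y| ≤ |x - y|) ∧ (∀ x : ℝ, 0 ≤ d x ∧ d x ≤ 2) ∧
  (∀ x : ℝ, d (x + d x) = 0 ∨ d (x - d x) = 0) ∧
  ∀ x y : ℝ, min |x - y| (1 - |x - y|) ≤ d x + d y

/-- the space of configurations -/
def E : Type := {d : ℝ → ℝ // IsE d}

instance : TopologicalSpace E := inferInstanceAs (TopologicalSpace {d : ℝ → ℝ // IsE d})
instance : T2Space E := inferInstanceAs (T2Space {d : ℝ → ℝ // IsE d})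
instance : MeasurableSpace E := borel E
instance : BorelSpace E := ⟨rfl⟩

/-- evaluation -/
def ev (x : ℝ) (d : E) : ℝ := d.1 x

/-- events determined by the values in a set -/
@[reducible] def Gs (S : Set ℝ) : MeasurableSpace E :=
  ⨆ x ∈ S, MeasurableSpace.comap (ev x) inferInstance

/-- CE: compactness. -/
def S_CE : Prop := CompactSpace E

/-- EVC: evaluations are continuous. -/
def S_EVC : Prop := ∀ x : ℝ, Continuous (ev x)

/-- the truncated distance from the scaled configuration -/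
def Dm (m : ℕ) (A : ℤ → Bool) (x : ℝ) : ℝ :=
  ⨅ n : ℤ, if A n = true then min 2 |x - n / 4 ^ m| else 2

/-- DMA: the distance function of a configuration with bounded gaps. -/
def S_DMA : Prop := ∀ (m : ℕ) (A : ℤ → Bool), Gap (4 ^ m) (4 * 4 ^ m) A → IsE (Dm m A)

/-- DMB: continuity, locality and shifts. -/
def S_DMB : Prop := ∀ (m : ℕ) (x : ℝ), (Continuous fun A : ℤ → Bool => Dm m A x) ∧
  (Measurable[Fs {n : ℤ | |x - n / 4 ^ m| < 2}] fun A : ℤ → Bool => Dm m A x) ∧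
  ∀ A : ℤ → Bool, Dm m (sh A) x = Dm m A (x + 1 / 4 ^ m)

/-- invariance under the translation by `t` -/
def Shi (P : Measure E) (t : ℝ) : Prop := ∀ (n : ℕ) (x : Fin n → ℝ) (φ : (Fin n → ℝ) → ℝ),
  Continuous φ →
    ∫ d : E, φ (fun i => ev (x i + t) d) ∂P = ∫ d : E, φ (fun i => ev (x i) d) ∂P

/-- independence of the parts on `(-∞, 0]` and `[C, ∞)` -/
def Ind (P : Measure E) (C : ℝ) : Prop := ∀ (n n' : ℕ) (x : Fin n → ℝ) (x' : Fin n' → ℝ)
  (φ : (Fin n → ℝ) → ℝ) (ψ : (Fin n' → ℝ) → ℝ), Continuous φ → Continuous ψ →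
  (∀ i, x i ≤ 0) → (∀ i, C ≤ x' i) →
    ∫ d : E, φ (fun i => ev (x i) d) * ψ (fun i => ev (x' i) d) ∂P =
      (∫ d : E, φ (fun i => ev (x i) d) ∂P) * ∫ d : E, ψ (fun i => ev (x' i) d) ∂P

/-- PRE: the laws before the limit. -/
def S_PRE : Prop := ∃ C : ℝ, 0 < C ∧ ∀ m : ℕ, ∃ P : ProbabilityMeasure E,
  (∀ j : ℤ, Shi (P : Measure E) (j / 4 ^ m)) ∧ Ind (P : Measure E) C

/-- LIM: the law of the limit. -/
def S_LIM : Prop := ∃ (C : ℝ) (P : ProbabilityMeasure E), 0 < C ∧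
  (∀ t : ℝ, Shi (P : Measure E) t) ∧ Ind (P : Measure E) C

/-- the zeros -/
def Zs (d : E) : Set ℝ := {x | d.1 x = 0}

/-- CNT: the number of points of an interval. -/
def S_CNT : Prop := ∀ u v : ℝ, (∀ d : E, (Zs d ∩ Set.Icc u v).Finite) ∧
  Measurable[Gs (Set.Icc u v)] fun d : E => (Zs d ∩ Set.Icc u v).ncard

/-- ZGP: gaps of the zeros. -/
def S_ZGP : Prop := ∀ d : E, (∀ x ∈ Zs d, ∀ y ∈ Zs d, x ≠ y → 1 ≤ |x - y|) ∧
  ∀ t : ℝ, (Zs d ∩ Set.Icc t (t + 4)).Nonempty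

/-- INDG: independence of sigma-algebras. -/
def S_INDG : Prop := ∀ (C : ℝ) (P : ProbabilityMeasure E), 0 < C → Ind (P : Measure E) C →
  Indep (Gs (Set.Iic 0)) (Gs (Set.Ici C)) (P : Measure E)

lemma isE_shift {d : ℝ → ℝ} (h : IsE d) (t : ℝ) : IsE fun x => d (x + t) := by
  obtain ⟨h1, h2, h3, h4⟩ := h
  refine ⟨fun x y => ?_, fun x => h2 _, fun x => ?_, fun x y => ?_⟩
  · have := h1 (x + t) (y + t)
    rwa [show x + t - (y + t) = x - y by ring] at this
  · have := h3 (x + t)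
    rwa [show x + t + d (x + t) = x + d (x + t) + t by ring,
      show x + t - d (x + t) = x - d (x + t) + t by ring] at this
  · have := h4 (x + t) (y + t)
    rwa [show x + t - (y + t) = x - y by ring] at this

/-- translation -/
def tr (t : ℝ) (d : E) : E := ⟨fun x => d.1 (x + t), isE_shift d.2 t⟩

/-- SHIG: invariance of the law. -/
def S_SHIG : Prop := ∀ (t : ℝ) (P : ProbabilityMeasure E), Shi (P : Measure E) t →
  ∀ S : Set E, MeasurableSet[Gs Set.univ] S →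
    (P : Measure E) (tr t ⁻¹' S) = (P : Measure E) S

end

end Pool.Agent.Y755.AX
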