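import Pool.Agent.Y545.AX.Cyl
import Pool.Agent.Y442.AX.BF
import Pool.Agent.Y918.AX.HLB
import Pool.Agent.Y918.AX.KOL
import Pool.Agent.Y459.AX.HL
import Pool.Agent.Y442.AX.MXD
import Pool.Agent.Y994.AX.ATS
import Pool.Agent.Y361.AX.ATP
import Pool.Agent.Y459.AX.ATG
import Pool.Agent.Y662.AX.SUBD
import Pool.Agent.Y418.AX.Spa
import Pool.Agent.Y418.AX.Lvl
import Pool.Agent.Y980.AX.CE
import Pool.Agent.Y442.AX.DMA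
import Pool.Agent.Y41.AX.DMB
import Pool.Agent.Y979.AX.Pre
import Pool.Agent.Y420.AX.LIM
import Pool.Agent.Y994.AX.CNT
import Pool.Agent.Y41.AX.INDG
import Pool.Agent.Y980.AX.SHIG
import Pool.Agent.Y418.AX.Fin

/-! Final assembly of project AX. -/

set_option autoImplicit false
set_option linter.unusedVariables false

open MeasureTheory ProbabilityTheory

namespace Pool.Agent.Y755.AX

theorem a_HL : S_HL :=
  Pool.Agent.Y459.AX.HL.t_HL Pool.Agent.Y918.AX.HLB.t_HLB Pool.Agent.Y918.AX.KOL.t_KOL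
    Pool.Agent.Y545.AX.Cyl.t_DEPC Pool.Agent.Y545.AX.Cyl.t_STAC

theorem a_ATP : S_ATP := Pool.Agent.Y361.AX.ATP.t_ATP Pool.Agent.Y545.AX.Cyl.t_DEPC

theorem a_SPA : S_SPA :=
  Pool.Agent.Y418.AX.Spa.t_SPA a_HL Pool.Agent.Y442.AX.MXD.t_MXD Pool.Agent.Y442.AX.BF.t_BF
    Pool.Agent.Y994.AX.ATS.t_ATS a_ATP Pool.Agent.Y459.AX.ATG.t_ATG

theorem a_LVL : S_LVL :=
  Pool.Agent.Y418.AX.Lvl.t_LVL a_SPA Pool.Agent.Y442.AX.BF.t_BF Pool.Agent.Y994.AX.ATS.t_ATS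
    a_ATP Pool.Agent.Y459.AX.ATG.t_ATG Pool.Agent.Y662.AX.SUBD.t_SUBD
    Pool.Agent.Y662.AX.SUBD.t_SUBL

theorem a_PRE : S_PRE :=
  Pool.Agent.Y979.AX.Pre.t_PRE a_LVL Pool.Agent.Y442.AX.DMA.t_DMA Pool.Agent.Y41.AX.DMB.t_DMB
    Pool.Agent.Y994.AX.CNT.t_EVC

theorem a_LIM : S_LIM :=
  Pool.Agent.Y420.AX.LIM.t_LIM Pool.Agent.Y980.AX.CE.t_CE Pool.Agent.Y994.AX.CNT.t_EVC a_PRE

theorem top :
    ∃ (Ω : Type) (m : MeasurableSpace Ω) (P : Measure Ω) (X : Ω → Set ℝ),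
      IsProbabilityMeasure P ∧
      (∀ ω : Ω, ∀ u v : ℝ, (X ω ∩ Set.Icc u v).Finite) ∧
      (∀ u v : ℝ, Measurable (fun ω : Ω => (X ω ∩ Set.Icc u v).ncard)) ∧
      (∀ t : ℝ, ∀ n : ℕ, ∀ (l r : Fin n → ℝ) (k : Fin n → ℕ),
        P {ω : Ω | ∀ i : Fin n, (X ω ∩ Set.Icc (l i) (r i)).ncard = k i} =
        P {ω : Ω | ∀ i : Fin n, (X ω ∩ Set.Icc (l i + t) (r i + t)).ncard = k i}) ∧
      (∃ c : ℝ, 0 < c ∧
        Indep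
          (⨆ u : ℝ, ⨆ v : ℝ, MeasurableSpace.comap
            (fun ω : Ω => (X ω ∩ Set.Icc u (min v 0)).ncard) (inferInstance : MeasurableSpace ℕ))
          (⨆ u : ℝ, ⨆ v : ℝ, MeasurableSpace.comap
            (fun ω : Ω => (X ω ∩ Set.Icc (max u c) v).ncard) (inferInstance : MeasurableSpace ℕ))
          P) ∧
      (∃ a b : ℝ, 0 < a ∧ a ≤ b ∧
        ∀ᵐ ω ∂P, (∀ x ∈ X ω, ∀ y ∈ X ω, x ≠ y → a ≤ |x - y|) ∧
          ∀ t : ℝ, (X ω ∩ Set.Icc t (t + b)).Nonempty) :=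
  Pool.Agent.Y418.AX.Fin.t_FIN a_LIM Pool.Agent.Y994.AX.CNT.t_CNT Pool.Agent.Y980.AX.CE.t_ZGP
    Pool.Agent.Y994.AX.CNT.t_EVC (Pool.Agent.Y41.AX.INDG.t_INDG Pool.Agent.Y994.AX.CNT.t_EVC)
    (Pool.Agent.Y980.AX.SHIG.t_SHIG Pool.Agent.Y994.AX.CNT.t_EVC)

end Pool.Agent.Y755.AX
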